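import Mathlib

set_option autoImplicit false

namespace Pool.Agent.H.MP_c16527_co

def rl (Q : ℕ → ℕ) : ℕ → List ℕ
  | 0 => []
  | k + 1 => Q (k + 1) :: rl Q k

lemma mem_rl (Q : ℕ → ℕ) (x : ℕ) : ∀ l, x ∈ rl Q l → ∃ s, 1 ≤ s ∧ s ≤ l ∧ x = Q s
  | 0 => by simp [rl]
  | l + 1 => by
    intro h
    rcases List.mem_cons.1 h with h | h
    · exact ⟨l + 1, by omega, le_rfl, h⟩
    · obtain ⟨s, h1, h2, h3⟩ := mem_rl Q x l h
      exact ⟨s, h1, by omega, h3⟩

lemma length_rl (Q : ℕ → ℕ) : ∀ l, (rl Q l).length = l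
  | 0 => rfl
  | l + 1 => by simp [rl, length_rl Q l]

lemma count_rl (Q : ℕ → ℕ) (g : ℕ → Bool) : ∀ l, (Q 0 :: rl Q l).countP g =
    ∑ s ∈ Finset.range (l + 1), if g (Q s) = true then 1 else 0
  | 0 => by
    rw [Finset.sum_range_one]
    simp [rl, List.countP_cons]
  | l + 1 => by
    have ih := count_rl Q g l
    rw [Finset.sum_range_succ, ← ih]
    simp only [rl, List.countP_cons]
    omega

section

variable (A : ℕ → ℕ → Bool) (vs : List ℕ)

def nn (x : ℕ) (l : List ℕ) : Bool := l.all fun y => !(Nat.beq x y) && !A x y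

lemma nn_of (x : ℕ) (Q : ℕ → ℕ) (l : ℕ) (h : ∀ s, 1 ≤ s → s ≤ l → x ≠ Q s ∧ A x (Q s) = false) :
    nn A x (rl Q l) = true := by
  rw [nn, List.all_eq_true]
  intro y hy
  obtain ⟨s, h1, h2, rfl⟩ := mem_rl Q y l hy
  obtain ⟨h3, h4⟩ := h s h1 h2
  simp [h4, h3, Bool.eq_false_iff]

def ext (a : ℕ) : List ℕ → ℕ → Bool
  | [], w => A w a
  | x :: r, w => A w x && (!(Nat.beq w a) && !A w a) && nn A w r

def lev (a : ℕ) : ℕ → List (List ℕ)
  | 0 => [[]]
  | k + 1 => (lev a k).flatMap fun p => (vs.filter (ext A a p)).map (· :: p)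

def allP (K a : ℕ) : List (List ℕ) := (List.range K).flatMap (lev A vs a)

structure IP (Q : ℕ → ℕ) (l : ℕ) : Prop where
  mem : ∀ s, s ≤ l → Q s ∈ vs
  inj : ∀ s t, s ≤ l → t ≤ l → Q s = Q t → s = t
  adj : ∀ s t, s ≤ l → t ≤ l → (A (Q s) (Q t) = true ↔ (s + 1 = t ∨ t + 1 = s))

variable {A vs}

lemma IP.far {Q : ℕ → ℕ} {l : ℕ} (h : IP A vs Q l) (s t : ℕ) (hs : s ≤ l) (hst : t + 1 < s) :
    Q s ≠ Q t ∧ A (Q s) (Q t) = false := by
  refine ⟨fun hh => ?_, ?_⟩
  · have := h.inj s t hs (by omega) hh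
    omega
  · rw [Bool.eq_false_iff]
    intro hh
    have := (h.adj s t hs (by omega)).1 hh
    omega

lemma IP.lev {Q : ℕ → ℕ} {l : ℕ} (h : IP A vs Q l) : ∀ k, k ≤ l → rl Q k ∈ lev A vs (Q 0) k
  | 0, _ => by simp [rl, MP_c16527_co.lev]
  | k + 1, hk => by
    have ih := h.lev k (by omega)
    simp only [MP_c16527_co.lev, List.mem_flatMap, List.mem_map, List.mem_filter]
    refine ⟨_, ih, Q (k + 1), ⟨h.mem _ hk, ?_⟩, rfl⟩
    cases k with
    | zero => exact (h.adj 1 0 hk (by omega)).2 (by omega)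
    | succ k =>
      have h1 := (h.adj (k + 1 + 1) (k + 1) hk (by omega)).2 (by omega)
      obtain ⟨h2, h3⟩ := h.far (k + 1 + 1) 0 hk (by omega)
      have h4 := nn_of A (Q (k + 1 + 1)) Q k fun s _ h6 => h.far _ s hk (by omega)
      simp [rl, ext, h1, h3, h4, h2, Bool.eq_false_iff]

lemma IP.all {Q : ℕ → ℕ} {l : ℕ} (h : IP A vs Q l) (K : ℕ)
    (hK : vs.all (fun a => (MP_c16527_co.lev A vs a K).isEmpty) = true) :
    rl Q l ∈ allP A vs K (Q 0) := by
  simp only [allP, List.mem_flatMap, List.mem_range]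
  refine ⟨l, ?_, h.lev l le_rfl⟩
  by_contra hl
  have h1 := h.lev K (by omega)
  have h2 := List.all_eq_true.1 hK _ (h.mem 0 (by omega))
  rw [List.isEmpty_iff] at h2
  simp [h2] at h1

variable (A vs)

def cT : List ℕ → List ℕ → Bool
  | b :: r, c :: s => Nat.beq b c && (!r.isEmpty && r.all fun x => nn A x s)
  | _, _ => false

def tri (c : List ℕ → List ℕ → Bool) (L : List (List ℕ)) : Bool :=
  L.all fun p => L.all fun q => !c p q

def thetaChk (K : ℕ) : Bool :=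
  vs.all fun a => (allP A vs K a).all fun p =>
    tri (cT A) (((allP A vs K a).filter (cT A p)))

def cP (a1 a2 : ℕ) : List ℕ → List ℕ → Bool
  | b :: r, c :: s => A b c && (nn A a1 (c :: s) && nn A a2 (b :: r) && nn A b s && nn A c r &&
      r.all fun x => nn A x s)
  | _, _ => false

def prismChk (K : ℕ) : Bool :=
  vs.all fun a1 => (vs.filter (A a1)).all fun a2 =>
    (vs.filter fun a3 => A a1 a3 && A a2 a3).all fun a3 =>
      (allP A vs K a1).all fun p1 => ((allP A vs K a2).filter (cP A a1 a2 p1)).all fun p2 =>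
        (allP A vs K a3).all fun p3 => !(cP A a1 a3 p1 p3 && cP A a2 a3 p2 p3)

def closes (a : ℕ) : List ℕ → ℕ → Bool
  | x :: r, w => A w x && A w a && !r.isEmpty && nn A w r
  | _, _ => false

def holeChk (K : ℕ) (R : ℕ → List ℕ → Bool) : Bool :=
  vs.all fun a => (allP A vs K a).all fun p => (vs.filter (closes A a p)).all fun w => R a (w :: p)

end

section Graph

variable {n : ℕ} (G : SimpleGraph (Fin n)) (A : ℕ → ℕ → Bool) (vs : List ℕ) (K : ℕ)

structure Rep : Prop where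
  adj : ∀ u v : Fin n, G.Adj u v ↔ A u v = true
  mem : ∀ u : Fin n, u.val ∈ vs
  fin : vs.all (fun a => (lev A vs a K).isEmpty) = true

variable {G A vs K}

lemma Rep.ip (h : Rep G A vs K) (P : ℕ → Fin n) (l : ℕ)
    (h1 : ∀ s t, s ≤ l → t ≤ l → P s = P t → s = t)
    (h2 : ∀ s t, s ≤ l → t ≤ l → (G.Adj (P s) (P t) ↔ (s + 1 = t ∨ t + 1 = s))) :
    IP A vs (fun s => (P s).val) l :=
  ⟨fun _ _ => h.mem _, fun s t hs ht hh => h1 s t hs ht (Fin.ext hh),
    fun s t hs ht => (h.adj _ _).symm.trans (h2 s t hs ht)⟩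

lemma Rep.non (h : Rep G A vs K) {u v : Fin n} (h1 : u ≠ v) (h2 : ¬ G.Adj u v) :
    u.val ≠ v.val ∧ A u v = false :=
  ⟨fun hh => h1 (Fin.ext hh), Bool.eq_false_iff.2 fun hh => h2 ((h.adj _ _).2 hh)⟩

theorem Rep.theta (h : Rep G A vs K) (hc : thetaChk A vs K = true) :
    ¬ ∃ (P : Fin 3 → ℕ → Fin n) (l : Fin 3 → ℕ),
          (∀ i, 2 ≤ l i) ∧
          (∀ i j, P i 0 = P j 0 ∧ P i (l i) = P j (l j)) ∧
          (∀ i s t, s ≤ l i → t ≤ l i → P i s = P i t → s = t) ∧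
          (∀ i s t, s ≤ l i → t ≤ l i →
            (G.Adj (P i s) (P i t) ↔ (s + 1 = t ∨ t + 1 = s))) ∧
          (∀ i j s t, i ≠ j → 0 < s → s < l i → 0 < t → t < l j →
            P i s ≠ P j t ∧ ¬ G.Adj (P i s) (P j t)) := by
  rintro ⟨P, l, h1, h2, h3, h4, h5⟩
  have hm : ∀ i, rl (fun s => (P i s).val) (l i) ∈ allP A vs K (P 0 0).val := by
    intro i
    have := (h.ip (P i) (l i) (h3 i) (h4 i)).all K h.fin
    simp only [(h2 i 0).1] at this
    exact this
  have hT : ∀ i j, i ≠ j → cT A (rl (fun s => (P i s).val) (l i))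
      (rl (fun s => (P j s).val) (l j)) = true := by
    intro i j hij
    obtain ⟨a, ha⟩ : ∃ a, l i = a + 1 + 1 := ⟨l i - 2, by have := h1 i; omega⟩
    obtain ⟨b, hb⟩ : ∃ b, l j = b + 1 := ⟨l j - 1, by have := h1 j; omega⟩
    have e := (h2 i j).2
    rw [ha, hb] at e
    rw [ha, hb, rl, rl.eq_2 _ b, cT, e]
    simp only [Nat.beq_refl, Bool.true_and, Bool.and_eq_true, List.all_eq_true]
    refine ⟨by simp [rl], fun x hx => ?_⟩
    obtain ⟨s, s1, s2, rfl⟩ := mem_rl _ x _ hx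
    refine nn_of A _ _ _ fun t t1 t2 => ?_
    obtain ⟨c1, c2⟩ := h5 i j s t hij (by omega) (by omega) (by omega) (by omega)
    exact h.non c1 c2
  have k1 := List.all_eq_true.1 (List.all_eq_true.1 hc _ (h.mem (P 0 0))) _ (hm 0)
  have k2 := List.all_eq_true.1 (List.all_eq_true.1 k1 _
    (List.mem_filter.2 ⟨hm 1, hT 0 1 (by decide)⟩)) _
    (List.mem_filter.2 ⟨hm 2, hT 0 2 (by decide)⟩)
  rw [hT 1 2 (by decide)] at k2
  exact absurd k2 (by decide)

theorem Rep.prism (h : Rep G A vs K) (hc : prismChk A vs K = true) :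
    ¬ ∃ (P : Fin 3 → ℕ → Fin n) (l : Fin 3 → ℕ),
          (∀ i, 1 ≤ l i) ∧
          (∀ i j s t, s ≤ l i → t ≤ l j → P i s = P j t → (i = j ∧ s = t)) ∧
          (∀ i j s t, s ≤ l i → t ≤ l j →
            (G.Adj (P i s) (P j t) ↔
              ((i = j ∧ (s + 1 = t ∨ t + 1 = s)) ∨
               (i ≠ j ∧ ((s = 0 ∧ t = 0) ∨ (s = l i ∧ t = l j)))))) := by
  rintro ⟨P, l, h1, h2, h3⟩
  have hm : ∀ i, rl (fun s => (P i s).val) (l i) ∈ allP A vs K (P i 0).val := by
    intro i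
    exact (h.ip (P i) (l i) (fun s t a b c => (h2 i i s t a b c).2)
      (fun s t a b => by simpa using h3 i i s t a b)).all K h.fin
  have hn : ∀ i j s t, i ≠ j → s ≤ l i → t ≤ l j → ¬ (s = 0 ∧ t = 0) → ¬ (s = l i ∧ t = l j) →
      (P i s).val ≠ (P j t).val ∧ A (P i s) (P j t) = false := by
    intro i j s t hij a b c d
    refine h.non (fun hh => hij (h2 i j s t a b hh).1) fun hh => ?_
    have := (h3 i j s t a b).1 hh
    tauto
  have h0 : ∀ i j, i ≠ j → A (P i 0) (P j 0) = true := fun i j hij =>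
    (h.adj _ _).1 ((h3 i j 0 0 (by omega) (by omega)).2 (Or.inr ⟨hij, Or.inl ⟨rfl, rfl⟩⟩))
  have hP : ∀ i j, i ≠ j → cP A (P i 0) (P j 0) (rl (fun s => (P i s).val) (l i))
      (rl (fun s => (P j s).val) (l j)) = true := by
    intro i j hij
    obtain ⟨a, ha⟩ : ∃ a, l i = a + 1 := ⟨l i - 1, by have := h1 i; omega⟩
    obtain ⟨b, hb⟩ : ∃ b, l j = b + 1 := ⟨l j - 1, by have := h1 j; omega⟩
    have e1 : A (P i (a + 1)) (P j (b + 1)) = true :=
      (h.adj _ _).1 ((h3 i j _ _ (by omega) (by omega)).2 (Or.inr ⟨hij, Or.inr ⟨ha.symm, hb.symm⟩⟩))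
    have e2 := nn_of A (P i 0) (fun s => (P j s).val) (b + 1) fun t t1 t2 =>
      hn i j 0 t hij (by omega) (by omega) (by omega) (by omega)
    have e3 := nn_of A (P j 0) (fun s => (P i s).val) (a + 1) fun t t1 t2 =>
      hn j i 0 t hij.symm (by omega) (by omega) (by omega) (by omega)
    have e4 := nn_of A (P i (a + 1)) (fun s => (P j s).val) b fun t t1 t2 =>
      hn i j _ t hij (by omega) (by omega) (by omega) (by omega)
    have e5 := nn_of A (P j (b + 1)) (fun s => (P i s).val) a fun t t1 t2 =>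
      hn j i _ t hij.symm (by omega) (by omega) (by omega) (by omega)
    rw [rl] at e2 e3
    rw [ha, hb, rl, rl, cP, e1, e2, e3, e4, e5]
    simp only [Bool.true_and, Bool.and_self, List.all_eq_true]
    intro x hx
    obtain ⟨s, s1, s2, rfl⟩ := mem_rl _ x _ hx
    exact nn_of A _ _ _ fun t t1 t2 => hn i j s t hij (by omega) (by omega) (by omega) (by omega)
  have k1 := List.all_eq_true.1 (List.all_eq_true.1 hc _ (h.mem (P 0 0))) _
    (List.mem_filter.2 ⟨h.mem (P 1 0), h0 0 1 (by decide)⟩)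
  have k2 := List.all_eq_true.1 k1 _ (List.mem_filter.2 ⟨h.mem (P 2 0), by
    rw [h0 0 2 (by decide), h0 1 2 (by decide)]; rfl⟩)
  have k3 := List.all_eq_true.1 (List.all_eq_true.1 (List.all_eq_true.1 k2 _ (hm 0)) _
    (List.mem_filter.2 ⟨hm 1, hP 0 1 (by decide)⟩)) _ (hm 2)
  rw [hP 0 2 (by decide), hP 1 2 (by decide)] at k3
  exact absurd k3 (by decide)

theorem Rep.hole (h : Rep G A vs K) (R : ℕ → List ℕ → Bool) (hc : holeChk A vs K R = true)
    (m : ℕ) (f : Fin m → Fin n) (hm : 4 ≤ m) (hf : Function.Injective f)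
    (ha : ∀ i j : Fin m, G.Adj (f i) (f j) ↔
      (((i : ℕ) + 1) % m = (j : ℕ) ∨ ((j : ℕ) + 1) % m = (i : ℕ))) :
    ∃ Q : ℕ → ℕ, (∀ i : Fin m, Q i = (f i).val) ∧ R (Q 0) (rl Q (m - 1)) = true := by
  obtain ⟨k, rfl⟩ : ∃ k, m = k + 4 := ⟨m - 4, by omega⟩
  let P : ℕ → Fin n := fun s => if hs : s < k + 4 then f ⟨s, hs⟩ else f 0
  have hP : ∀ s (hs : s < k + 4), P s = f ⟨s, hs⟩ := fun s hs => dif_pos hs
  have hi : ∀ s t, s < k + 4 → t < k + 4 → P s = P t → s = t := by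
    intro s t hs ht hh
    rw [hP s hs, hP t ht] at hh
    simpa using hf hh
  have hA : ∀ s t, s < k + 4 → t < k + 4 → (G.Adj (P s) (P t) ↔
      ((s + 1) % (k + 4) = t ∨ (t + 1) % (k + 4) = s)) := by
    intro s t hs ht
    rw [hP s hs, hP t ht, ha]
  have hip := h.ip P (k + 2) (fun s t a b => hi s t (by omega) (by omega)) (fun s t a b => by
    rw [hA s t (by omega) (by omega), Nat.mod_eq_of_lt (by omega), Nat.mod_eq_of_lt (by omega)])
  refine ⟨fun s => (P s).val, fun i => by simp only [hP i i.2], ?_⟩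
  have k1 := List.all_eq_true.1 (List.all_eq_true.1 hc _ (h.mem (P 0))) _ (hip.all K h.fin)
  refine List.all_eq_true.1 k1 _ (List.mem_filter.2 ⟨h.mem (P (k + 3)), ?_⟩)
  have e1 : A (P (k + 3)) (P (k + 2)) = true := (h.adj _ _).1
    ((hA _ _ (by omega) (by omega)).2 (Or.inr (Nat.mod_eq_of_lt (by omega))))
  have e2 : A (P (k + 3)) (P 0) = true := (h.adj _ _).1
    ((hA _ _ (by omega) (by omega)).2 (Or.inl (Nat.mod_self _)))
  have e3 := nn_of A (P (k + 3)) (fun s => (P s).val) (k + 1) fun t t1 t2 => by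
    refine h.non (fun hh => ?_) fun hh => ?_
    · have := hi _ _ (by omega) (by omega) hh
      omega
    · have := (hA _ _ (by omega) (by omega)).1 hh
      rw [Nat.mod_self, Nat.mod_eq_of_lt (by omega)] at this
      omega
  rw [rl, closes, e1, e2, e3]
  simp [rl]

def wheelR (A : ℕ → ℕ → Bool) (vs : List ℕ) (a : ℕ) (l : List ℕ) : Bool :=
  vs.all fun c => (a :: l).contains c || Nat.blt ((a :: l).countP (A c)) 3 ||
    Nat.beq ((a :: l).countP (A c) % 2) 1

theorem Rep.wheel (h : Rep G A vs K) (hc : holeChk A vs K (wheelR A vs) = true) :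
    ¬ ∃ (m : ℕ) (f : Fin m → Fin n) (c : Fin n),
          4 ≤ m ∧ Function.Injective f ∧
          (∀ i j : Fin m, G.Adj (f i) (f j) ↔
            (((i : ℕ) + 1) % m = (j : ℕ) ∨ ((j : ℕ) + 1) % m = (i : ℕ))) ∧
          (∀ i, f i ≠ c) ∧
          3 ≤ Nat.card {i : Fin m // G.Adj c (f i)} ∧
          Even (Nat.card {i : Fin m // G.Adj c (f i)}) := by
  classical
  rintro ⟨m, f, c, h1, h2, h3, h4, h5, h6⟩
  obtain ⟨Q, hQ, hR⟩ := h.hole _ hc m f h1 h2 h3
  have e : Nat.card {i : Fin m // G.Adj c (f i)} = (Q 0 :: rl Q (m - 1)).countP (A c) := by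
    rw [count_rl, Nat.sub_add_cancel (by omega), ← Fin.sum_univ_eq_sum_range
      (fun s => if A c (Q s) = true then 1 else 0), Nat.card_eq_fintype_card,
      Fintype.card_subtype, Finset.card_filter]
    refine Finset.sum_congr rfl fun i _ => ?_
    simp only [hQ, h.adj]
  have k := List.all_eq_true.1 hR _ (h.mem c)
  rw [← e] at k
  simp only [Bool.or_eq_true, Nat.blt_eq, Nat.beq_eq, List.contains_iff_mem] at k
  rcases k with (k | k) | k
  · rcases List.mem_cons.1 k with k | k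
    · exact h4 ⟨0, by omega⟩ (Fin.ext (by rw [k, ← hQ]))
    · obtain ⟨s, s1, s2, s3⟩ := mem_rl _ _ _ k
      exact h4 ⟨s, by omega⟩ (Fin.ext (by rw [s3, ← hQ]))
  · omega
  · have := Nat.even_iff.1 h6
    omega

theorem Rep.evenHole (h : Rep G A vs K)
    (hc : holeChk A vs K (fun _ l => Nat.beq (l.length % 2) 0) = true)
    (m : ℕ) (f : Fin m → Fin n) (hm : 4 ≤ m) (hf : Function.Injective f)
    (ha : ∀ i j : Fin m, G.Adj (f i) (f j) ↔
      (((i : ℕ) + 1) % m = (j : ℕ) ∨ ((j : ℕ) + 1) % m = (i : ℕ))) : Odd m := by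
  obtain ⟨Q, _, hR⟩ := h.hole _ hc m f hm hf ha
  rw [length_rl, Nat.beq_eq] at hR
  rw [Nat.odd_iff]
  omega

end Graph

lemma conn_of {V X : Type} (G : SimpleGraph V) (lab : V → X) (root : X → V) (par : V → V)
    (rk : V → ℕ) (h1 : ∀ x, lab (root x) = x)
    (h2 : ∀ v, v ≠ root (lab v) → lab (par v) = lab v ∧ G.Adj v (par v) ∧ rk (par v) < rk v)
    (x : X) : (G.induce {v | lab v = x}).Connected := by
  have key : ∀ k (v : V) (hv : lab v = x), rk v = k →
      (G.induce {v | lab v = x}).Reachable ⟨v, hv⟩ ⟨root x, h1 x⟩ := by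
    intro k
    induction k using Nat.strong_induction_on with
    | _ k ih =>
    intro v hv hk
    by_cases h : v = root (lab v)
    · have : v = root x := by rw [h, hv]
      subst this
      rfl
    · obtain ⟨a, b, c⟩ := h2 v h
      have hp : lab (par v) = x := a.trans hv
      have hadj : (G.induce {v | lab v = x}).Adj ⟨v, hv⟩ ⟨par v, hp⟩ := b
      exact hadj.reachable.trans (ih _ (hk ▸ c) _ hp rfl)
  have : Nonempty {v | lab v = x} := ⟨⟨root x, h1 x⟩⟩
  exact ⟨fun u v => (key _ u.1 u.2 rfl).trans (key _ v.1 v.2 rfl).symm⟩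

theorem minor_of {V X : Type} (G : SimpleGraph V) (H : SimpleGraph X) (lab : V → X)
    (root : X → V) (par : V → V) (rk : V → ℕ) (h1 : ∀ x, lab (root x) = x)
    (h2 : ∀ v, v ≠ root (lab v) → lab (par v) = lab v ∧ G.Adj v (par v) ∧ rk (par v) < rk v)
    (h3 : ∀ x y, x ≠ y → ((∃ u v, lab u = x ∧ lab v = y ∧ G.Adj u v) ↔ H.Adj x y)) :
    ∃ B : X → Set V, (∀ x, (G.induce (B x)).Connected) ∧
      (∀ x y, x ≠ y → Disjoint (B x) (B y)) ∧
      (∀ x y, x ≠ y → ((∃ u ∈ B x, ∃ v ∈ B y, G.Adj u v) ↔ H.Adj x y)) := by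
  refine ⟨fun x => {v | lab v = x}, conn_of G lab root par rk h1 h2, fun x y hxy => ?_,
    fun x y hxy => ?_⟩
  · rw [Set.disjoint_left]
    intro v a b
    exact hxy (a.symm.trans b)
  · rw [← h3 x y hxy]
    constructor
    · rintro ⟨u, a, v, b, c⟩
      exact ⟨u, v, a, b, c⟩
    · rintro ⟨u, v, a, b, c⟩
      exact ⟨u, a, v, b, c⟩

def bit (M u v : ℕ) : Bool :=
  Nat.beq (Nat.land (Nat.shiftRight M (Nat.add (Nat.mul 16 u) v)) 1) 1

end Pool.Agent.H.MP_c16527_co
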