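import Pool.Agent.H.MP_c16527_co.A

set_option autoImplicit false

namespace Pool.Agent.H.MP_c16527_co

def A12 : ℕ → ℕ → Bool := bit 101914151239966050502923069048889578029255127064090313218

def vs12 : List ℕ := [0, 1, 2, 3, 4, 5, 6, 7, 8, 9, 10, 11]

def G12 : SimpleGraph (Fin 12) where
  Adj u v := A12 u v = true
  symm := ⟨by decide +kernel⟩
  loopless := ⟨by decide +kernel⟩

instance : DecidableRel G12.Adj := fun u v => inferInstanceAs (Decidable (A12 u v = true))

lemma rep12 : Rep G12 A12 vs12 8 := ⟨fun _ _ => Iff.rfl, by decide +kernel, by decide +kernel⟩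

lemma theta12 : thetaChk A12 vs12 8 = true := by decide +kernel
lemma prism12 : prismChk A12 vs12 8 = true := by decide +kernel
lemma wheel12 : holeChk A12 vs12 8 (wheelR A12 vs12) = true := by decide +kernel
lemma even12 : holeChk A12 vs12 8 (fun _ l => Nat.beq (l.length % 2) 0) = true := by
  decide +kernel

lemma minor12 : ∃ B : Fin 3 ⊕ Fin 3 → Set (Fin 12), (∀ x, (G12.induce (B x)).Connected) ∧
    (∀ x y, x ≠ y → Disjoint (B x) (B y)) ∧
    (∀ x y, x ≠ y → ((∃ u ∈ B x, ∃ v ∈ B y, G12.Adj u v) ↔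
      (completeBipartiteGraph (Fin 3) (Fin 3)).Adj x y)) := by
  refine minor_of G12 _
    ![.inr 1, .inr 1, .inr 1, .inr 0, .inr 2, .inl 2, .inl 0, .inl 1, .inr 2, .inl 2, .inl 1,
      .inr 0]
    (Sum.elim ![6, 7, 5] ![3, 0, 4]) ![0, 0, 1, 3, 4, 5, 6, 7, 4, 5, 7, 3]
    ![0, 1, 2, 0, 0, 0, 0, 0, 1, 1, 1, 1] (by decide +kernel) (by decide +kernel) ?_
  simp only [completeBipartiteGraph_adj]
  decide +kernel

end Pool.Agent.H.MP_c16527_co
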